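import Mathlib

/-! Doubled and subdivided complete graphs of odd order need more added edges than the
conjectured bound. -/

namespace Pool.Agent.Results.MP_df5a7a_co.OddFamily

open Finset

/-- `S` is a total dominating set of `G`. -/
def IsTD {V : Type} (G : SimpleGraph V) (S : Set V) : Prop := ∀ v, ∃ w ∈ S, G.Adj v w

/-- The least number of edges whose addition gives two disjoint total dominating sets. -/
noncomputable def td {V : Type} (G : SimpleGraph V) : ℕ :=
  sInf {m | ∃ H : SimpleGraph V, G ≤ H ∧ (H.edgeSet \ G.edgeSet).ncard = m ∧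
    ∃ S T : Set V, Disjoint S T ∧ IsTD H S ∧ IsTD H T}

def G0 (N : ℕ) : SimpleGraph (Fin N × Fin N) where
  Adj p q := (p.1 = p.2 ∧ q.1 ≠ q.2 ∧ (p.1 = q.1 ∨ p.1 = q.2)) ∨
    (q.1 = q.2 ∧ p.1 ≠ p.2 ∧ (q.1 = p.1 ∨ q.1 = p.2))
  symm := ⟨fun _ _ h => h.symm⟩
  loopless := ⟨fun _ h => by rcases h with h | h <;> exact h.2.1 h.1⟩

lemma lower {V : Type} [Fintype V] (G H : SimpleGraph V) (B : Finset V)
    (hB : ∀ v ∈ B, ∃ w, H.Adj v w ∧ ¬ G.Adj v w) :
    B.card ≤ 2 * (H.edgeSet \ G.edgeSet).ncard := by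
  classical
  choose! w hw using hB
  rw [Set.ncard_eq_toFinset_card' ]
  refine card_le_mul_card_image_of_maps_to (f := fun v => s(v, w v)) (fun v hv => ?_) 2 ?_
  · simpa using hw v hv
  · intro e _
    induction e using Sym2.ind with
    | h a b =>
      refine (card_le_card (fun v hv => ?_)).trans (card_le_two (a := a) (b := b))
      have := (mem_filter.1 hv).2
      rw [Sym2.eq_iff] at this
      simp only [mem_insert, mem_singleton]
      tauto

lemma td_ge (k : ℕ) (hk : 1 ≤ k) : k ^ 2 ≤ td (G0 (2 * k + 1)) := by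
  classical
  refine le_csInf ⟨_, ⊤, le_top, rfl, {p | p.1 = 0}, {p | p.1 = ⟨1, by omega⟩}, ?_, ?_, ?_⟩ ?_
  · refine Set.disjoint_left.2 (fun p h1 h2 => ?_)
    have := h1.symm.trans h2
    simp [Fin.ext_iff] at this
  · intro v
    obtain ⟨j, hj⟩ : ∃ j : Fin (2 * k + 1), j ≠ v.2 :=
      have : Nontrivial (Fin (2 * k + 1)) := Fin.nontrivial_iff_two_le.2 (by omega)
      exists_ne _
    exact ⟨(0, j), rfl, fun h => hj (by rw [h])⟩
  · intro v
    obtain ⟨j, hj⟩ : ∃ j : Fin (2 * k + 1), j ≠ v.2 :=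
      have : Nontrivial (Fin (2 * k + 1)) := Fin.nontrivial_iff_two_le.2 (by omega)
      exists_ne _
    exact ⟨(⟨1, by omega⟩, j), rfl, fun h => hj (by rw [h])⟩
  rintro m ⟨H, -, rfl, S, T, hST, hS, hT⟩
  let A : Finset (Fin (2 * k + 1)) := univ.filter (fun i => (i, i) ∈ S)
  have h := lower (G0 (2 * k + 1)) H (A.offDiag ∪ Aᶜ.offDiag) (by
    rintro ⟨i, j⟩ hv
    rcases mem_union.1 hv with hv | hv
    · simp only [mem_offDiag, A, mem_filter, mem_univ, true_and] at hv
      obtain ⟨⟨a, b⟩, hw, h1⟩ := hT (i, j)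
      refine ⟨_, h1, ?_⟩
      rintro (h2 | ⟨h2, -, h3 | h3⟩)
      · exact hv.2.2 h2.1
      · simp only at h2 h3
        subst h2 h3
        exact Set.disjoint_left.1 hST hv.1 hw
      · simp only at h2 h3
        subst h2 h3
        exact Set.disjoint_left.1 hST hv.2.1 hw
    · simp only [mem_offDiag, A, mem_compl, mem_filter, mem_univ, true_and] at hv
      obtain ⟨⟨a, b⟩, hw, h1⟩ := hS (i, j)
      refine ⟨_, h1, ?_⟩
      rintro (h2 | ⟨h2, -, h3 | h3⟩)
      · exact hv.2.2 h2.1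
      · simp only at h2 h3
        subst h2 h3
        exact hv.1 hw
      · simp only at h2 h3
        subst h2 h3
        exact hv.2.1 hw)
  rw [card_union_of_disjoint (disjoint_left.2 (fun p h1 h2 =>
    (mem_compl.1 (mem_offDiag.1 h2).1) (mem_offDiag.1 h1).1)), offDiag_card, offDiag_card] at h
  have e := card_add_card_compl A
  rw [Fintype.card_fin] at e
  generalize A.card = a at *
  generalize Aᶜ.card = b at *
  have h1 := Nat.le_mul_self a
  have h2 := Nat.le_mul_self b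
  have h3 : 2 * k ^ 2 + (a + b) ≤ a * a + b * b := by
    rcases Nat.lt_or_ge k a with h4 | h4
    · obtain ⟨c, rfl⟩ : ∃ c, k = b + c := ⟨k - b, by omega⟩
      obtain rfl : a = b + 2 * c + 1 := by omega
      nlinarith
    · obtain ⟨c, rfl⟩ : ∃ c, k = a + c := ⟨k - a, by omega⟩
      obtain rfl : b = a + 2 * c + 1 := by omega
      nlinarith
  omega

theorem result : ∀ k : ℕ, 1 ≤ k → ∃ G : SimpleGraph (Fin (2 * k + 1) × Fin (2 * k + 1)),
    (∀ v, 2 ≤ (G.neighborSet v).ncard) ∧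
    ((Nat.card (Fin (2 * k + 1) × Fin (2 * k + 1)) : ℝ) -
      2 * √(Nat.card (Fin (2 * k + 1) × Fin (2 * k + 1)) : ℝ)) / 4 < td G := by
  intro k hk
  refine ⟨G0 _, ?_, ?_⟩
  · rintro ⟨i, j⟩
    rw [Nat.succ_le_iff, Set.one_lt_ncard (Set.toFinite _)]
    by_cases h : i = j
    · subst h
      obtain ⟨j, hj⟩ : ∃ j : Fin (2 * k + 1), j ≠ i :=
        have : Nontrivial (Fin (2 * k + 1)) := Fin.nontrivial_iff_two_le.2 (by omega)
        exists_ne _
      exact ⟨(i, j), Or.inl ⟨rfl, hj.symm, Or.inl rfl⟩, (j, i), Or.inl ⟨rfl, hj, Or.inr rfl⟩,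
        fun h => hj (congrArg Prod.snd h)⟩
    · exact ⟨(i, i), Or.inr ⟨rfl, h, Or.inl rfl⟩, (j, j), Or.inr ⟨rfl, h, Or.inr rfl⟩,
        fun e => h (congrArg Prod.snd e)⟩
  · have h : ((k : ℝ)) ^ 2 ≤ td (G0 (2 * k + 1)) := by exact_mod_cast td_ge k hk
    rw [Nat.card_prod, Nat.card_fin, Nat.cast_mul, Real.sqrt_mul_self (by positivity)]
    push_cast
    linarith

end Pool.Agent.Results.MP_df5a7a_co.OddFamily
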